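import Pool.Agent.helper64.D2.SpecD

set_option autoImplicit false

open Filter Topology
open scoped commutatorElement

namespace Pool.Agent.helper64.D2

theorem BLK_t (n : ℕ) (hn : 20 ≤ n) : (0 : ℝ) < 1 / 2 ^ n ∧ (1 : ℝ) / 2 ^ n ≤ 1 / 1000000 := by
  refine ⟨by positivity, ?_⟩
  have h1 : (2 : ℝ) ^ 20 ≤ 2 ^ n := pow_le_pow_right₀ (by norm_num) hn
  calc (1 : ℝ) / 2 ^ n ≤ 1 / 2 ^ 20 := one_div_le_one_div_of_le (by positivity) h1
    _ ≤ 1 / 1000000 := by norm_num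

theorem BLK (hBAS : BAS_stmt) (hDIF : DIF_stmt) (hBOX : BOX_stmt) (hBXA : BXA_stmt) (hRAT : RAT_stmt)
    (hSZC : SZC_stmt) : BLK_stmt := by
  intro f X c w hf hX hsup hd2 hc hc0 hw
  have hci : ∀ i, 20 ≤ c i := fun i => hc0.trans (hc.monotone (Nat.zero_le i))
  have ht : ∀ i, (0 : ℝ) < 1 / 2 ^ (c i) ∧ (1 : ℝ) / 2 ^ (c i) ≤ 1 / 1000000 := fun i => BLK_t _ (hci i)
  have htm : ∀ i, (1 : ℝ) / 2 ^ (c (i + 1)) ≤ 1 / 2 ^ (c i) := fun i =>
    one_div_le_one_div_of_le (by positivity) (pow_le_pow_right₀ (by norm_num) (hc.monotone (Nat.le_succ i)))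
  -- the smoothings
  set XM : ℕ → ℝ → ℝ := fun i => av X (-(1 / 2 ^ (c i))) (1 / 2 ^ (c i)) with hXM
  have hb : ∀ i, ContDiff ℝ 2 (XM i) ∧ (∀ x, x ∉ Set.Icc (33 / 100 : ℝ) (57 / 100) → XM i x = 0) ∧
      (∀ x, |d2 (XM i) x| ≤ 1 / 10000) ∧
      ∀ x y, |d2 (XM i) x - d2 (XM i) y| ≤ 2 ^ (c i) / 10000 * |x - y| := by
    intro i
    obtain ⟨h1, h2, -, -, h5, h6⟩ := hBOX X (34 / 100) (56 / 100) (1 / 10000) (-(1 / 2 ^ (c i))) (1 / 2 ^ (c i))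
      hX hsup hd2 (by linarith [(ht i).1])
    refine ⟨h1, fun x hx => h2 x fun hx' => hx ⟨?_, ?_⟩, h5, fun x y => ?_⟩
    · linarith [hx'.1, (ht i).2]
    · linarith [hx'.2, (ht i).2]
    · refine (h6 x y).trans (le_of_eq ?_)
      congr 1
      have : (2 : ℝ) ^ (c i) ≠ 0 := by positivity
      field_simp
      ring
  have hd : ∀ i, (∀ x, |deriv (XM i) x - deriv X x| ≤ 1 / 10000 * (1 / 2 ^ (c i))) ∧
      ∀ v : ℝ, (∀ x y, |x - y| ≤ 1 / 2 ^ (c i) → |d2 X x - d2 X y| ≤ v) → ∀ x, |d2 (XM i) x - d2 X x| ≤ v := by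
    intro i
    refine ⟨(hBXA X (34 / 100) (56 / 100) (1 / 10000) (1 / 2 ^ (c i)) 0 hX hsup hd2 (ht i).1).1, fun v hv => ?_⟩
    exact (hBXA X (34 / 100) (56 / 100) (1 / 10000) (1 / 2 ^ (c i)) v hX hsup hd2 (ht i).1).2 hv
  have hM : ∀ i, ∃ g : DD, Rep g (XM i) := by
    intro i
    obtain ⟨h1, h2, h3, -⟩ := hb i
    obtain ⟨k1, -, -, -⟩ := hBAS (XM i) (33 / 100) (57 / 100) (1 / 10000) h1 h2 h3 (by norm_num)
    refine hDIF (XM i) h1 (fun x hx => h2 x fun hx' => hx ⟨?_, ?_⟩) fun x => (k1 x).trans (by norm_num)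
    · linarith [hx'.1]
    · linarith [hx'.2]
  choose M hM using hM
  have hG : ∀ i, ∃ Z : ℝ → ℝ, Rep (M i * (M (i + 1))⁻¹) Z ∧
      St Z (33 / 100) (57 / 100) (4 * w i) (2 ^ (c (i + 1))) ∧ ∀ x, |deriv Z x| ≤ 1 / 2 ^ (c i) := by
    intro i
    obtain ⟨h1, h2, h3, h4⟩ := hb i
    obtain ⟨g1, g2, g3, g4⟩ := hb (i + 1)
    obtain ⟨Z, z1, z2, z3, z4, z5, z6⟩ := hRAT (M i) (M (i + 1)) (XM i) (XM (i + 1)) (33 / 100) (57 / 100)
      (1 / 10000) (hM i) (hM (i + 1)) h1 g1 (fun x hx => ⟨h2 x hx, g2 x hx⟩) (fun x => ⟨h3 x, g3 x⟩)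
      (by norm_num) (by norm_num) (by norm_num) (by norm_num)
    refine ⟨Z, z1, ⟨z2, z3, ?_, ?_⟩, ?_⟩
    · intro x
      have e1 : ∀ x, |d2 (XM i) x - d2 (XM (i + 1)) x| ≤ 2 * w i := by
        intro x
        have a1 := (hd i).2 (w i) (hw i) x
        have a2 := (hd (i + 1)).2 (w i) (fun x y hxy => hw i x y (hxy.trans (htm i))) x
        rw [abs_le] at a1 a2 ⊢
        constructor <;> linarith [a1.1, a1.2, a2.1, a2.2]
      linarith [z4 _ e1 x]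
    · intro x y
      have hpow : (2 : ℝ) ^ (c i) ≤ 2 ^ (c (i + 1)) := pow_le_pow_right₀ (by norm_num) (hc.monotone (Nat.le_succ i))
      have hbig : (2 : ℝ) ^ 20 ≤ 2 ^ (c (i + 1)) := pow_le_pow_right₀ (by norm_num) (hci (i + 1))
      have h5 := z6 (2 ^ (c (i + 1)) / 10000) (by positivity) (fun x y => (h4 x y).trans
        (mul_le_mul_of_nonneg_right (by linarith) (abs_nonneg _))) g4 x y
      refine h5.trans (mul_le_mul_of_nonneg_right ?_ (abs_nonneg _))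
      have : (2 : ℝ) ^ 20 = 1048576 := by norm_num
      linarith
    · intro x
      have e1 : ∀ x, |deriv (XM i) x - deriv (XM (i + 1)) x| ≤ 2 / 10000 * (1 / 2 ^ (c i)) := by
        intro x
        have a1 := (hd i).1 x
        have a2 := (hd (i + 1)).1 x
        have a3 := htm i
        rw [abs_le] at a1 a2 ⊢
        constructor <;> linarith [a1.1, a1.2, a2.1, a2.2]
      have := z5 _ e1 x
      linarith [(ht i).1]
  choose XG hG using hG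
  refine ⟨M, XM, XG, fun i => ⟨hM i, ?_, (hG i).1, (hG i).2.1, (hG i).2.2, ?_⟩⟩
  · obtain ⟨h1, h2, h3, h4⟩ := hb i
    refine ⟨h1, h2, h3, fun x y => (h4 x y).trans (mul_le_mul_of_nonneg_right ?_ (abs_nonneg _))⟩
    have : (0 : ℝ) < 2 ^ (c i) := by positivity
    linarith
  · obtain ⟨h1, h2, h3, h4⟩ := hb i
    obtain ⟨Z, z1, -, -, z4, -, -⟩ := hRAT f (M i) X (XM i) (33 / 100) (57 / 100) (1 / 10000) hf (hM i) hX h1
      (fun x hx => ⟨hsup x fun hx' => hx ⟨by linarith [hx'.1], by linarith [hx'.2]⟩, h2 x hx⟩)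
      (fun x => ⟨hd2 x, h3 x⟩) (by norm_num) (by norm_num) (by norm_num) (by norm_num)
    intro x
    rw [(hSZC.1 _ Z z1).2.2.2 x]
    refine z4 (w i) (fun x => ?_) x
    rw [abs_sub_comm]
    exact (hd i).2 (w i) (hw i) x

end Pool.Agent.helper64.D2
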