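import Pool.Agent.helper64.D2.SpecF

/-!
# Project dc: (MP_5823cb_al), NR1: the commutator trick
-/

set_option autoImplicit false

open Filter Topology
open scoped commutatorElement

namespace Pool.Agent.helper64.D2

theorem NR1 (hNCB : NCB_stmt) (hGGB : GGB_stmt) : NR1_stmt := by
  intro f a b α β ha hb hSa hSb hdis
  obtain ⟨hext, hmul, hone, hinv, hint, hmono, -, -⟩ := hGGB
  obtain ⟨hf, hconj⟩ := hNCB f
  have hinvs : ∀ x : ℝ, (∀ n : ℤ, x + n ∉ Set.Icc α β) → gg a⁻¹ x = x := by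
    intro x hx
    have h1 := (hinv a x).1
    rw [hSa x hx] at h1
    exact h1
  -- the element c'
  have hc1 : ∀ x : ℝ, (∃ n : ℤ, x + n ∈ Set.Icc α β) → gg (f * a⁻¹ * f⁻¹) x = x := by
    rintro x ⟨m, hm⟩
    rw [hmul, hmul]
    have hy : ∀ n : ℤ, gg f⁻¹ x + n ∉ Set.Icc α β := by
      intro n hn
      refine hdis _ hn _ hm (n - m) ?_
      rw [hint, (hinv f x).2]
      push_cast
      ring
    rw [hinvs _ hy, (hinv f x).2]
  have hc2 : ∀ x : ℝ, (∀ n : ℤ, x + n ∉ Set.Icc α β) → ∀ n : ℤ, gg (f * a⁻¹ * f⁻¹) x + n ∉ Set.Icc α β := by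
    intro x hx n hn
    have h1 := hc1 _ ⟨n, hn⟩
    have h2 := (hmono (f * a⁻¹ * f⁻¹)).injective h1
    rw [h2] at hn
    exact hx n hn
  have hb2 : ∀ x : ℝ, (∃ n : ℤ, x + n ∈ Set.Icc α β) → ∃ n : ℤ, gg b x + n ∈ Set.Icc α β := by
    rintro x ⟨m, hm⟩
    by_contra hcon
    push Not at hcon
    have h1 := hSb _ hcon
    have h2 := (hmono b).injective h1
    rw [h2] at hcon
    exact hcon m hm
  have hcomm : (f * a⁻¹ * f⁻¹) * b = b * (f * a⁻¹ * f⁻¹) := by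
    apply hext
    intro x
    rw [hmul _ b, hmul b]
    by_cases hx : ∃ n : ℤ, x + n ∈ Set.Icc α β
    · rw [hc1 x hx, hc1 _ (hb2 x hx)]
    · push Not at hx
      rw [hSb x hx, hSb _ (hc2 x hx)]
  have hcm : a * (f * a⁻¹ * f⁻¹) ∈ NC f := by
    have h1 : a * f * a⁻¹ * f⁻¹ ∈ NC f := (NC f).mul_mem (hconj a ha f hf) ((NC f).inv_mem hf)
    have h2 : a * (f * a⁻¹ * f⁻¹) = a * f * a⁻¹ * f⁻¹ := by group
    rw [h2]
    exact h1
  have hfin : ⁅a, b⁆ = (a * (f * a⁻¹ * f⁻¹)) * (b * (a * (f * a⁻¹ * f⁻¹))⁻¹ * b⁻¹) := by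
    have h3 : (f * a⁻¹ * f⁻¹) * b * (f * a⁻¹ * f⁻¹)⁻¹ = b := by
      rw [hcomm]
      group
    calc ⁅a, b⁆ = a * b * a⁻¹ * b⁻¹ := rfl
      _ = a * ((f * a⁻¹ * f⁻¹) * b * (f * a⁻¹ * f⁻¹)⁻¹) * a⁻¹ * b⁻¹ := by rw [h3]
      _ = _ := by group
  rw [hfin]
  exact (NC f).mul_mem hcm (hconj b hb _ ((NC f).inv_mem hcm))

end Pool.Agent.helper64.D2
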